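import Pool.Agent.W39.LE.Stm

set_option autoImplicit false

namespace Pool.W481.LE

open Pool.W39.LE Matrix

open Classical in
theorem herm {n : ℕ} (G : SimpleGraph (Fin n)) : (G.lapMatrix ℝ).IsHermitian :=
  (SimpleGraph.posSemidef_lapMatrix ℝ G).isHermitian

open Classical in
theorem spec_eq {n : ℕ} (G : SimpleGraph (Fin n)) :
    spec G = Multiset.map (herm G).eigenvalues Finset.univ.val := by
  unfold spec
  rw [(herm G).roots_charpoly_eq_eigenvalues]
  rfl

open Classical in
theorem t_SPL : S_SPL := by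
  intro n G
  refine ⟨by rw [spec_eq]; simp, fun z => ?_⟩
  have h1 : G.lapMatrix ℂ = (G.lapMatrix ℝ).map (algebraMap ℝ ℂ) := by
    ext i j
    simp [SimpleGraph.lapMatrix, SimpleGraph.degMatrix, Matrix.diagonal_apply]
    split_ifs <;> simp
  have h2 : (Matrix.scalar (Fin n) z - G.lapMatrix ℂ).det = (G.lapMatrix ℂ).charpoly.eval z := by
    rw [Matrix.eval_charpoly]
  rw [h2, h1, Matrix.charpoly_map, (herm G).charpoly_eq, spec_eq]
  rw [Multiset.map_map]
  simp only [Polynomial.eval_map, Polynomial.eval₂_finsetProd]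
  rw [Finset.prod]
  congr 1
  refine Multiset.map_congr rfl fun i _ => ?_
  simp

/-- the quadratic form in the eigenbasis -/
theorem quad {n : ℕ} {A : Matrix (Fin n) (Fin n) ℝ} (hA : A.IsHermitian) (w : Fin n → ℝ) :
    w ⬝ᵥ (A *ᵥ w) = ∑ i, hA.eigenvalues i * ((hA.eigenvectorBasis i : Fin n → ℝ) ⬝ᵥ w) ^ 2 ∧
    w ⬝ᵥ w = ∑ i, ((hA.eigenvectorBasis i : Fin n → ℝ) ⬝ᵥ w) ^ 2 := by
  have key : ∀ x y : Fin n → ℝ, x ⬝ᵥ y = ∑ i, ((hA.eigenvectorBasis i : Fin n → ℝ) ⬝ᵥ x) *
      ((hA.eigenvectorBasis i : Fin n → ℝ) ⬝ᵥ y) := by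
    intro x y
    have h := hA.eigenvectorBasis.sum_inner_mul_inner (WithLp.toLp 2 x) (WithLp.toLp 2 y)
    have e1 : inner ℝ (WithLp.toLp 2 x : EuclideanSpace ℝ (Fin n)) (WithLp.toLp 2 y) = x ⬝ᵥ y := by
      rw [EuclideanSpace.inner_eq_star_dotProduct]
      simp [dotProduct_comm]
    rw [← e1, ← h]
    refine Finset.sum_congr rfl fun i _ => ?_
    rw [EuclideanSpace.inner_eq_star_dotProduct, EuclideanSpace.inner_eq_star_dotProduct]
    simp [dotProduct_comm]
  constructor
  · rw [key w (A *ᵥ w)]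
    refine Finset.sum_congr rfl fun i _ => ?_
    have h1 : (hA.eigenvectorBasis i : Fin n → ℝ) ⬝ᵥ (A *ᵥ w) =
        (A *ᵥ (hA.eigenvectorBasis i : Fin n → ℝ)) ⬝ᵥ w := by
      have hs : Aᵀ = A := by
        have := hA.eq
        rwa [Matrix.conjTranspose_eq_transpose_of_trivial] at this
      rw [Matrix.dotProduct_mulVec, ← Matrix.mulVec_transpose, hs]
    rw [h1, hA.mulVec_eigenvectorBasis, smul_dotProduct]
    simp only [smul_eq_mul]
    ring
  · rw [key w w]
    refine Finset.sum_congr rfl fun i _ => by ring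

open Classical in
theorem lap_quad {n k : ℕ} (G : SimpleGraph (Fin n)) (f : Fin k × Bool → Fin n)
    (hf : Function.Injective f) (hadj : ∀ i, G.Adj (f (i, false)) (f (i, true)))
    (w : Fin n → ℝ) (c : Fin k → ℝ) (hw0 : ∀ i, w (f (i, false)) = c i)
    (hw1 : ∀ i, w (f (i, true)) = - c i) (hwz : ∀ v, v ∉ Set.range f → w v = 0) :
    2 * (w ⬝ᵥ w) ≤ w ⬝ᵥ (G.lapMatrix ℝ *ᵥ w) := by
  have h1 : w ⬝ᵥ w = ∑ i, 2 * c i ^ 2 := by
    have : w ⬝ᵥ w = ∑ p : Fin k × Bool, w (f p) * w (f p) := by
      rw [dotProduct]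
      rw [← Finset.sum_subset (s₁ := Finset.univ.image f) (Finset.subset_univ _)]
      · rw [Finset.sum_image (fun a _ b _ h => hf h)]
      · intro v _ hv
        rw [hwz v (by
          rintro ⟨p, rfl⟩
          exact hv (Finset.mem_image_of_mem f (Finset.mem_univ p)))]
        simp
    rw [this, Fintype.sum_prod_type]
    refine Finset.sum_congr rfl fun i _ => ?_
    simp [hw0, hw1]
    ring
  have h2 : w ⬝ᵥ (G.lapMatrix ℝ *ᵥ w) =
      (∑ i, ∑ j, if G.Adj i j then (w i - w j) ^ 2 else 0) / 2 := by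
    rw [← SimpleGraph.lapMatrix_toLinearMap₂', Matrix.toLinearMap₂'_apply']
  rw [h2, h1]
  have h3 : ∑ p : Fin k × Bool, 4 * c p.1 ^ 2 ≤
      ∑ q : Fin n × Fin n, if G.Adj q.1 q.2 then (w q.1 - w q.2) ^ 2 else 0 := by
    have hinj : Function.Injective (fun p : Fin k × Bool => (f p, f (p.1, !p.2))) := by
      intro p q h
      exact hf (Prod.ext_iff.mp h).1
    calc ∑ p : Fin k × Bool, 4 * c p.1 ^ 2
        = ∑ q ∈ Finset.univ.image (fun p : Fin k × Bool => (f p, f (p.1, !p.2))),
            (if G.Adj q.1 q.2 then (w q.1 - w q.2) ^ 2 else 0) := by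
          rw [Finset.sum_image (fun a _ b _ h => hinj h)]
          refine Finset.sum_congr rfl fun p _ => ?_
          obtain ⟨i, b⟩ := p
          cases b
          · simp only [Bool.not_false]
            rw [if_pos (hadj i), hw0, hw1]
            ring
          · simp only [Bool.not_true]
            rw [if_pos (hadj i).symm, hw0, hw1]
            ring
      _ ≤ _ := by
          refine Finset.sum_le_sum_of_subset_of_nonneg (Finset.subset_univ _) fun q _ _ => ?_
          split_ifs
          · positivity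
          · exact le_rfl
  rw [Fintype.sum_prod_type] at h3
  rw [Fintype.sum_prod_type] at h3
  simp only [Fintype.sum_bool] at h3
  have h4 : ∑ i : Fin k, (4 * c i ^ 2 + 4 * c i ^ 2) = 4 * ∑ i, 2 * c i ^ 2 := by
    rw [Finset.mul_sum]
    exact Finset.sum_congr rfl fun i _ => by ring
  rw [h4] at h3
  linarith

open Classical in
theorem t_EIG : S_EIG := by
  intro n k G f hf hadj
  rw [spec_eq, Multiset.filter_map, Multiset.card_map]
  by_contra hlt
  push Not at hlt
  set hA := herm G with hAdef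
  set T : Finset (Fin n) := Finset.univ.filter (fun i => 2 ≤ hA.eigenvalues i) with hT
  have hTc : T.card < k := by
    refine lt_of_eq_of_lt ?_ hlt
    rfl
  -- the map `c ↦ w(c)`
  let W : (Fin k → ℝ) →ₗ[ℝ] (Fin n → ℝ) :=
    { toFun := fun c v => ∑ i, c i * ((if v = f (i, false) then 1 else 0) -
        (if v = f (i, true) then 1 else 0))
      map_add' := by
        intro c d
        ext v
        simp [add_mul, Finset.sum_add_distrib]
      map_smul' := by
        intro r c
        ext v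
        simp [Finset.mul_sum, mul_assoc] }
  have hW0 : ∀ c i, W c (f (i, false)) = c i := by
    intro c i
    change ∑ j, c j * ((if f (i, false) = f (j, false) then (1 : ℝ) else 0) -
        (if f (i, false) = f (j, true) then 1 else 0)) = c i
    rw [Finset.sum_eq_single i]
    · rw [if_pos rfl, if_neg (fun h => by simpa using hf h)]
      ring
    · intro j _ hj
      rw [if_neg (fun h => hj (by simpa using (hf h).symm)), if_neg (fun h => by simpa using hf h)]
      ring
    · intro h
      exact absurd (Finset.mem_univ i) h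
  have hW1 : ∀ c i, W c (f (i, true)) = - c i := by
    intro c i
    change ∑ j, c j * ((if f (i, true) = f (j, false) then (1 : ℝ) else 0) -
        (if f (i, true) = f (j, true) then 1 else 0)) = - c i
    rw [Finset.sum_eq_single i]
    · rw [if_pos rfl, if_neg (fun h => by simpa using hf h)]
      ring
    · intro j _ hj
      rw [if_neg (fun h => by simpa using hf h), if_neg (fun h => hj (by simpa using (hf h).symm))]
      ring
    · intro h
      exact absurd (Finset.mem_univ i) h
  have hWz : ∀ c v, v ∉ Set.range f → W c v = 0 := by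
    intro c v hv
    change ∑ j, c j * ((if v = f (j, false) then (1 : ℝ) else 0) -
        (if v = f (j, true) then 1 else 0)) = 0
    refine Finset.sum_eq_zero fun j _ => ?_
    rw [if_neg (fun h => hv ⟨_, h.symm⟩), if_neg (fun h => hv ⟨_, h.symm⟩)]
    ring
  let P : (Fin k → ℝ) →ₗ[ℝ] (T → ℝ) :=
    { toFun := fun c i => (hA.eigenvectorBasis i.1 : Fin n → ℝ) ⬝ᵥ (W c)
      map_add' := by
        intro c d
        ext i
        simp [dotProduct_add]
      map_smul' := by
        intro r c
        ext i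
        simp [dotProduct_smul] }
  have hker : LinearMap.ker P ≠ ⊥ := by
    apply LinearMap.ker_ne_bot_of_finrank_lt
    simpa using hTc
  obtain ⟨c, hc, hc0⟩ := (Submodule.ne_bot_iff _).mp hker
  rw [LinearMap.mem_ker] at hc
  have hle := lap_quad G f hf hadj (W c) c (hW0 c) (hW1 c) (hWz c)
  obtain ⟨q1, q2⟩ := quad hA (W c)
  rw [q1, q2, Finset.mul_sum] at hle
  have hne : ∃ i, (hA.eigenvectorBasis i : Fin n → ℝ) ⬝ᵥ (W c) ≠ 0 := by
    by_contra hall
    push Not at hall
    have h0 : W c ⬝ᵥ W c = 0 := by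
      rw [q2]
      exact Finset.sum_eq_zero fun i _ => by rw [hall i]; ring
    have h1 : W c = 0 := dotProduct_self_eq_zero.mp h0
    apply hc0
    ext i
    rw [← hW0 c i, h1]
    rfl
  obtain ⟨i0, hi0⟩ := hne
  have hzero : ∀ i, 2 ≤ hA.eigenvalues i → (hA.eigenvectorBasis i : Fin n → ℝ) ⬝ᵥ (W c) = 0 := by
    intro i hi
    have hiT : i ∈ T := by simp [hT, hi]
    exact congrFun hc ⟨i, hiT⟩
  have hlt2 : ∑ i, hA.eigenvalues i * ((hA.eigenvectorBasis i : Fin n → ℝ) ⬝ᵥ (W c)) ^ 2 <
      ∑ i, 2 * ((hA.eigenvectorBasis i : Fin n → ℝ) ⬝ᵥ (W c)) ^ 2 := by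
    refine Finset.sum_lt_sum (fun i _ => ?_) ⟨i0, Finset.mem_univ i0, ?_⟩
    · rcases le_or_gt 2 (hA.eigenvalues i) with h | h
      · rw [hzero i h]
        simp
      · exact mul_le_mul_of_nonneg_right h.le (sq_nonneg _)
    · rcases le_or_gt 2 (hA.eigenvalues i0) with h | h
      · exact absurd (hzero i0 h) hi0
      · exact mul_lt_mul_of_pos_right h (by positivity)
  exact absurd hle (not_le.mpr hlt2)

end Pool.W481.LE

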